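import Pool.Agent.Helper95.LN.Stmts

/-!
# Row KK: bounds of the smeared Coulomb kernel
-/

set_option autoImplicit false

namespace Pool.Agent.Helper34.LN

open MeasureTheory Filter Pool.Agent.Helper95.PW Pool.Agent.Helper95.LN

theorem kk_nr (y : R3) : nr y = ‖(WithLp.toLp 2 y : EuclideanSpace ℝ (Fin 3))‖ := by
  rw [EuclideanSpace.norm_eq]
  simp [nr, Fin.sum_univ_three, sq_abs]

theorem kk_tri (w z : R3) : nr z ≤ nr w + nr (w - z) := by
  rw [kk_nr, kk_nr, kk_nr, WithLp.toLp_sub]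
  have h := norm_sub_le (WithLp.toLp 2 w : EuclideanSpace ℝ (Fin 3))
    (WithLp.toLp 2 w - WithLp.toLp 2 z)
  rw [sub_sub_cancel] at h
  exact h

theorem kk_neg (z : R3) : nr (0 - z) = nr z := by
  rw [zero_sub]
  unfold nr
  simp only [Pi.neg_apply, neg_sq]

theorem kk_nonneg (z : R3) : 0 ≤ nr z := Real.sqrt_nonneg _

theorem kk_pd (f : R3 → ℝ) (i : Fin 3) (z w : R3) :
    pd i (fun w => f (w - z)) w = pd i f (w - z) := by
  unfold pd
  rw [fderiv_comp_sub]

theorem kk_lap (f : R3 → ℝ) (z w : R3) : lap (fun w => f (w - z)) w = lap f (w - z) := by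
  unfold lap
  refine Finset.sum_congr rfl fun i _ => ?_
  have h : pd i (fun w => f (w - z)) = fun w => pd i f (w - z) := by
    funext v
    exact kk_pd f i z v
  rw [h]
  exact kk_pd (pd i f) i z w

theorem KK (h1 : ST_MVP) (h2 : ST_PHA) (h3 : ST_PHB) (h4 : ST_PHC) : ST_KK := by
  intro a z ha
  obtain ⟨p1, p2, p3, p4, -⟩ := h2 a ha
  obtain ⟨q1, -, -, -⟩ := h3 a ha
  obtain ⟨-, hkap, -, h4'⟩ := h4
  obtain ⟨-, r2, r3, -, -, -⟩ := h4' a ha
  have hs : ContDiff ℝ (⊤ : ℕ∞) (fun w : R3 => ph a (w - z)) :=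
    p1.comp (contDiff_id.sub contDiff_const)
  obtain ⟨m1, m2⟩ := h1 (fun w : R3 => ph a (w - z)) 0 a hs ha
  have hlap : ∀ w, lap (fun w : R3 => ph a (w - z)) w = -et a (w - z) := by
    intro w
    rw [kk_lap, q1]
  simp only [sub_zero] at m1 m2
  have m2' := m2 fun w _ => by
    rw [hlap]
    linarith [r2 (w - z)]
  have hK : Kf a z = 1 / kap * ∫ w, ph a (w - z) * et a w := rfl
  have hle : Kf a z ≤ ph a (0 - z) := by
    rw [hK]
    calc 1 / kap * ∫ w, ph a (w - z) * et a w ≤ 1 / kap * (kap * ph a (0 - z)) :=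
          mul_le_mul_of_nonneg_left m2' (by positivity)
      _ = ph a (0 - z) := by field_simp
  refine ⟨?_, ?_, ?_, ?_⟩
  · intro hz
    have h5 := m1 fun w hw => by
      rw [hlap]
      have h6 := kk_tri w z
      rw [r3 (w - z) (by linarith), neg_zero]
    rw [hK, h5, p2 (0 - z) (by rw [kk_neg]; linarith), kk_neg]
    field_simp
  · intro hz
    refine hle.trans ?_
    have h6 := p3 (0 - z) (by rw [kk_neg]; exact hz)
    rw [kk_neg] at h6
    exact h6
  · rw [hK]
    apply mul_nonneg (by positivity)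
    apply integral_nonneg
    intro w
    exact mul_nonneg (p4 (w - z)).1 (r2 w)
  · exact hle.trans (p4 (0 - z)).2

end Pool.Agent.Helper34.LN
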